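import Pool.Agent.LowEl.CA
import Pool.Agent.EllPR.Newton

/-!
# Nondegenerate zeros of lower elementary systems are lower elementary
-/

open Filter Topology

namespace Pool.Agent.LowEl

open Pool.Agent.EllPR (Vec T val vv)
open Pool.Agent.EllPR

theorem exists_digits (B m : ℕ) (u : Fin m → ℕ) (hu : ∀ i, u i < B) :
    ∃ w < B ^ m, ∀ i : Fin m, w / B ^ (i : ℕ) % B = u i := by
  let f : Fin m → Fin B := fun i => ⟨u i, hu i⟩
  refine ⟨(finFunctionFinEquiv f : ℕ), (finFunctionFinEquiv f).2, fun i => ?_⟩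
  have h1 : finFunctionFinEquiv.symm (finFunctionFinEquiv f) = f := Equiv.symm_apply_apply _ _
  have h2 : ((finFunctionFinEquiv.symm (finFunctionFinEquiv f)) i : ℕ) = u i := by
    rw [h1]
  rw [← h2]
  rfl

theorem Lf.prod {α κ : Type} [Cod α] (s : Finset κ) {F : κ → α → ℕ} (hF : ∀ k ∈ s, Lf (F k)) :
    Lf fun a => ∏ k ∈ s, F k a := by
  classical
  induction s using Finset.induction_on with
  | empty => exact (Lf.const 1).of_eq fun a => by rw [Finset.prod_empty]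
  | insert k s hk ih =>
    refine ((hF k (Finset.mem_insert_self _ _)).mul
      (ih fun j hj => hF j (Finset.mem_insert_of_mem hj))).of_eq fun a => ?_
    rw [Finset.prod_insert hk]

theorem cast_nrm (x : T) : ((T.nrm x : ℕ) : ℝ) = ‖val x‖ ^ 2 * ((x.2.2.2.2 : ℝ) + 1) ^ 2 := by
  obtain ⟨p, q, r, s, t⟩ := x
  have ht : (0 : ℝ) < (t : ℝ) + 1 := by positivity
  have h1 : ((T.nrm (p, q, r, s, t) : ℕ) : ℝ) = ((p : ℝ) - q) ^ 2 + ((r : ℝ) - s) ^ 2 := by
    have h2 : ∀ a b : ℕ, ((T.dsq a b : ℕ) : ℝ) = ((a : ℝ) - b) ^ 2 := by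
      intro a b
      have := T.cast_dsq a b
      exact_mod_cast this
    unfold T.nrm
    push_cast
    rw [h2, h2]
  have h3 : ‖val (p, q, r, s, t)‖ ^ 2 =
      (((p : ℝ) - q) ^ 2 + ((r : ℝ) - s) ^ 2) / ((t : ℝ) + 1) ^ 2 := by
    have e : val (p, q, r, s, t) = ((((p : ℝ) - q : ℝ) : ℂ) + (((r : ℝ) - s : ℝ) : ℂ) *
        Complex.I) / ((((t : ℝ) + 1 : ℝ)) : ℂ) := by
      simp only [val]
      push_cast
      rfl
    rw [e, norm_div, div_pow, Complex.sq_norm, Complex.normSq_add_mul_I, Complex.norm_real,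
      Real.norm_eq_abs, sq_abs]
  rw [h1, h3]
  field_simp

/-- the comparison of the absolute value of a code with `H / (N + 1)` -/
theorem test_iff (x : T) (N H : ℕ) :
    1 - (T.nrm x * (N + 1) ^ 2 - H ^ 2 * (x.2.2.2.2 + 1) ^ 2) ≠ 0 ↔
      ‖val x‖ ≤ (H : ℝ) / ((N : ℝ) + 1) := by
  have hN : (0 : ℝ) < (N : ℝ) + 1 := by positivity
  have ht : (0 : ℝ) < (x.2.2.2.2 : ℝ) + 1 := by positivity
  have h1 : 1 - (T.nrm x * (N + 1) ^ 2 - H ^ 2 * (x.2.2.2.2 + 1) ^ 2) ≠ 0 ↔
      T.nrm x * (N + 1) ^ 2 ≤ H ^ 2 * (x.2.2.2.2 + 1) ^ 2 := by omega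
  rw [h1, ← Nat.cast_le (α := ℝ)]
  push_cast
  rw [cast_nrm, le_div_iff₀ hN]
  have e1 : ‖val x‖ ^ 2 * ((x.2.2.2.2 : ℝ) + 1) ^ 2 * ((N : ℝ) + 1) ^ 2 =
      (‖val x‖ * ((N : ℝ) + 1)) ^ 2 * ((x.2.2.2.2 : ℝ) + 1) ^ 2 := by ring
  rw [e1, mul_le_mul_iff_left₀ (by positivity), sq_le_sq₀ (by positivity) (by positivity)]

/-- nondegenerate zeros -/
theorem zero_mem {ι : Type} [Fintype ι] {G : (ι → ℂ) → (ι → ℂ)} {b : ι → ℂ}
    (e : (ι → ℂ) ≃L[ℂ] (ι → ℂ))
    (hG : HasStrictFDerivAt G (e : (ι → ℂ) →L[ℂ] (ι → ℂ)) b) (hG0 : G b = 0)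
    (hCA : ∀ k, CA (fun v => G v k) b) (k : ι) : IsLE (b k) := by
  classical
  have hne : Nonempty ι := ⟨k⟩
  choose r hr A hA hA1 using fun k => (hCA k).eff'
  -- the two bounds
  let s : (ι → ℂ) →L[ℂ] (ι → ℂ) := (e.symm : (ι → ℂ) →L[ℂ] (ι → ℂ))
  let ns : ℝ := ‖s‖ + 1
  let ne : ℝ := ‖(e : (ι → ℂ) →L[ℂ] (ι → ℂ))‖
  have hne0 : 0 ≤ ne := norm_nonneg _
  have hns1 : 1 ≤ ns := le_add_of_nonneg_left (norm_nonneg _)
  have hns0 : 0 < ns := one_pos.trans_le hns1
  have hlin : ∀ᶠ x in 𝓝 b, ‖G x - G b - e (x - b)‖ ≤ 1 / (2 * ns) * ‖x - b‖ :=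
    (hG.hasFDerivAt.isLittleO).bound (by positivity)
  obtain ⟨ρ1, hρ1, hρ1'⟩ := Metric.eventually_nhds_iff.1 hlin
  have hinf : 0 < Finset.univ.inf' Finset.univ_nonempty r := by
    rw [Finset.lt_inf'_iff]; exact fun k _ => hr k
  obtain ⟨ρ, hρ, hρρ1, hρr⟩ : ∃ ρ : ℝ, 0 < ρ ∧ ρ ≤ ρ1 ∧ ∀ k, ρ ≤ r k :=
    ⟨min ρ1 (Finset.univ.inf' Finset.univ_nonempty r), lt_min hρ1 hinf, min_le_left _ _,
      fun k => (min_le_right _ _).trans (Finset.inf'_le _ (Finset.mem_univ k))⟩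
  have hlow : ∀ x, ‖x - b‖ < ρ → ‖x - b‖ ≤ 2 * ns * ‖G x‖ ∧ ‖G x‖ ≤ (ne + 1) * ‖x - b‖ := by
    intro x hx
    have h1 := hρ1' (y := x) (by rw [dist_eq_norm]; exact hx.trans_le hρρ1)
    rw [hG0, sub_zero] at h1
    have hx0 := norm_nonneg (x - b)
    have h2 : 1 / (2 * ns) * ‖x - b‖ ≤ 1 / 2 * ‖x - b‖ := by
      apply mul_le_mul_of_nonneg_right _ hx0
      apply one_div_le_one_div_of_le two_pos
      linarith
    constructor
    · have h3 : x - b = s (e (x - b)) := (e.symm_apply_apply _).symm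
      have h4 : ‖x - b‖ ≤ ns * ‖e (x - b)‖ := by
        conv_lhs => rw [h3]
        refine (s.le_opNorm _).trans ?_
        apply mul_le_mul_of_nonneg_right _ (norm_nonneg _)
        exact le_add_of_nonneg_right zero_le_one
      have h5 : ‖e (x - b)‖ ≤ ‖G x‖ + 1 / (2 * ns) * ‖x - b‖ := by
        have e1 : e (x - b) = G x - (G x - e (x - b)) := by abel
        rw [e1]
        exact (norm_sub_le _ _).trans (add_le_add_right h1 _)
      have h6 : ns * (1 / (2 * ns) * ‖x - b‖) = ‖x - b‖ / 2 := by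
        field_simp
      have h7 := mul_le_mul_of_nonneg_left h5 hns0.le
      rw [mul_add, h6] at h7
      linarith
    · have e1 : G x = (G x - e (x - b)) + e (x - b) := by abel
      have h3 : ‖e (x - b)‖ ≤ ne * ‖x - b‖ := (e : (ι → ℂ) →L[ℂ] (ι → ℂ)).le_opNorm _
      have h4 : ‖G x‖ ≤ ‖G x - e (x - b)‖ + ‖e (x - b)‖ := by
        conv_lhs => rw [e1]
        exact norm_add_le _ _
      linarith
  -- the grid
  obtain ⟨R', hR'⟩ := exists_nat_gt (8 / ρ)
  let R : ℝ := (R' : ℝ) + 1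
  have hR0 : 0 < R := by positivity
  have hRρ : 8 / R < ρ := by
    have h1 : 8 / ρ < R := hR'.trans (lt_add_one _)
    rw [div_lt_iff₀ hρ] at h1
    rw [div_lt_iff₀ hR0]
    linarith
  have hR2 : 0 < 1 / (2 * R) := by positivity
  choose x0 hx0 using fun k => T.exists_val_near (b k - (1 + Complex.I) / R) hR2
  obtain ⟨H, hH⟩ := exists_nat_ge (2 * (ne + 1) + 1)
  let m : ℕ := Fintype.card (ι × Bool)
  let τ : ι × Bool ≃ Fin m := Fintype.equivFin _
  let Bb : ℕ → ℕ := fun N => 2 * (N + 1) + 1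
  let dg : ℕ → ℕ × ℕ → ℕ := fun j p => p.2 / Bb p.1 ^ j % Bb p.1
  have hBbf : Lf fun p : ℕ × ℕ => Bb p.1 := ((Lf.const 2).mul Lf.fst.succ).succ
  have hdg : ∀ j, Lf (dg j) := by
    intro j
    have h1 : Lf fun p : ℕ × ℕ => p.2 / Bb p.1 ^ j := by
      refine (Lf.snd.div ((hBbf.pow j).sub (Lf.const 1))).of_eq fun p => ?_
      rw [Nat.sub_add_cancel]
      exact Nat.one_le_pow _ _ (Nat.succ_pos _)
    exact h1.mod ((Lf.const 2).mul Lf.fst.succ)
  let X : ℕ × ℕ → Vec ι T := fun p k => T.add (x0 k)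
    (dg (τ (k, false)) p, 0, dg (τ (k, true)) p, 0, R' * (p.1 + 1) + p.1)
  have hX : Lf X := by
    apply Lf.vec
    intro k
    exact Lf.tadd (Lf.const _) (Lf.tmk (hdg _) (Lf.const 0) (hdg _) (Lf.const 0)
      (((Lf.const R').mul Lf.fst.succ).add Lf.fst))
  have hXval : ∀ p k, val (X p k) = val (x0 k) +
      ((dg (τ (k, false)) p : ℂ) + (dg (τ (k, true)) p : ℂ) * Complex.I) /
        ((R : ℂ) * ((p.1 : ℂ) + 1)) := by
    intro p k
    show val (T.add (x0 k) _) = _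
    rw [T.val_add]
    congr 1
    simp only [val]
    congr 1
    · push_cast
      ring
    · show ((R' * (p.1 + 1) + p.1 : ℕ) : ℂ) + 1 = (((R' : ℝ) + 1 : ℝ) : ℂ) * ((p.1 : ℂ) + 1)
      push_cast
      ring
  let tst : ℕ × ℕ → ℕ := fun p => ∏ l, (1 - (T.nrm (A l (p.1, X p)) * (p.1 + 1) ^ 2 -
    H ^ 2 * ((A l (p.1, X p)).2.2.2.2 + 1) ^ 2))
  have htst : Lf tst := by
    apply Lf.prod
    intro l _
    have h1 : Lf fun p : ℕ × ℕ => A l (p.1, X p) := (hA l).comp (Lf.fst.pair hX)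
    exact (Lf.const 1).sub ((h1.tnrm.mul (Lf.fst.succ.pow 2)).sub
      ((Lf.const (H ^ 2)).mul (h1.t5.succ.pow 2)))
  have htst_iff : ∀ p, tst p ≠ 0 ↔ ∀ l, ‖val (A l (p.1, X p))‖ ≤ (H : ℝ) / ((p.1 : ℝ) + 1) := by
    intro p
    rw [Finset.prod_ne_zero_iff]
    constructor
    · intro h l
      exact (test_iff _ _ _).1 (h l (Finset.mem_univ l))
    · intro h l _
      exact (test_iff _ _ _).2 (h l)
  -- all the points of the grid are near `b`
  have hnear : ∀ p, ‖vv (X p) - b‖ < ρ := by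
    intro p
    refine lt_of_le_of_lt ?_ hRρ
    rw [pi_norm_le_iff_of_nonneg (by positivity)]
    intro k
    have hN : (0 : ℝ) < (p.1 : ℝ) + 1 := by positivity
    have h1 : ∀ j, (dg j p : ℝ) ≤ 2 * ((p.1 : ℝ) + 1) := by
      intro j
      have h2 : dg j p < Bb p.1 := Nat.mod_lt _ (Nat.succ_pos _)
      have h3 : dg j p ≤ 2 * (p.1 + 1) := Nat.lt_succ_iff.1 h2
      exact_mod_cast h3
    have e1 : (vv (X p) - b) k = (val (x0 k) - (b k - (1 + Complex.I) / R)) -
        (1 + Complex.I) / R + ((dg (τ (k, false)) p : ℂ) + (dg (τ (k, true)) p : ℂ) *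
          Complex.I) / ((R : ℂ) * ((p.1 : ℂ) + 1)) := by
      rw [Pi.sub_apply]
      show val (X p k) - b k = _
      rw [hXval]
      ring
    have h4 : ‖(1 + Complex.I) / (R : ℂ)‖ ≤ 2 / R := by
      rw [norm_div, Complex.norm_real, Real.norm_eq_abs, abs_of_pos hR0]
      apply div_le_div_of_nonneg_right _ hR0.le
      refine (norm_add_le _ _).trans ?_
      rw [norm_one, Complex.norm_I]
      norm_num
    have h5 : ‖((dg (τ (k, false)) p : ℂ) + (dg (τ (k, true)) p : ℂ) *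
          Complex.I) / ((R : ℂ) * ((p.1 : ℂ) + 1))‖ ≤ 4 / R := by
      have e2 : ‖(R : ℂ) * ((p.1 : ℂ) + 1)‖ = R * ((p.1 : ℝ) + 1) := by
        have e3 : (R : ℂ) * ((p.1 : ℂ) + 1) = ((R * ((p.1 : ℝ) + 1) : ℝ) : ℂ) := by
          push_cast
          rfl
        rw [e3, Complex.norm_real, Real.norm_eq_abs, abs_of_pos (by positivity)]
      rw [norm_div, e2, div_le_div_iff₀ (by positivity) hR0]
      have h6 : ‖(dg (τ (k, false)) p : ℂ) + (dg (τ (k, true)) p : ℂ) * Complex.I‖ ≤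
          4 * ((p.1 : ℝ) + 1) := by
        refine (norm_add_le _ _).trans ?_
        rw [norm_mul, Complex.norm_I, mul_one, Complex.norm_natCast, Complex.norm_natCast]
        linarith [h1 (τ (k, false)), h1 (τ (k, true))]
      calc _ ≤ 4 * ((p.1 : ℝ) + 1) * R := mul_le_mul_of_nonneg_right h6 hR0.le
        _ = 4 * (R * ((p.1 : ℝ) + 1)) := by ring
    rw [e1]
    refine (norm_add_le _ _).trans ?_
    have h7 := (norm_sub_le (val (x0 k) - (b k - (1 + Complex.I) / (R : ℂ)))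
      ((1 + Complex.I) / (R : ℂ))).trans (add_le_add (hx0 k).le h4)
    have h8 : 1 / (2 * R) + 2 / R + 4 / R ≤ 8 / R := by
      rw [div_add_div _ _ (by positivity) (by positivity), div_add_div _ _ (by positivity)
        (by positivity), div_le_div_iff₀ (by positivity) hR0]
      nlinarith [mul_pos hR0 hR0, mul_pos (mul_pos hR0 hR0) hR0]
    linarith
  -- a point which passes the test
  have hex : ∀ N, ∃ w < Bb N ^ m, tst (N, w) ≠ 0 := by
    intro N
    have hN : (0 : ℝ) < (N : ℝ) + 1 := by positivity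
    let d : ι → ℂ := fun k => b k - val (x0 k)
    have hd : ∀ k, ‖d k - (1 + Complex.I) / R‖ < 1 / (2 * R) := by
      intro k
      have := hx0 k
      rw [← norm_neg] at this
      convert! this using 2
      simp only [d]
      ring
    have hRe : ((1 + Complex.I) / (R : ℂ)).re = 1 / R ∧ ((1 + Complex.I) / (R : ℂ)).im = 1 / R := by
      rw [Complex.div_ofReal_re, Complex.div_ofReal_im]
      simp
    have hb1 : ∀ y : ℝ, |y - 1 / R| < 1 / (2 * R) → 0 < y ∧ y < 2 / R := by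
      intro y hy
      rw [abs_lt] at hy
      have e3 : 1 / (2 * R) = 1 / R / 2 := by rw [one_div, one_div, mul_inv]; ring
      have e4 : 2 / R = 2 * (1 / R) := by ring
      have h1 : 0 < 1 / R := by positivity
      rw [e3] at hy
      rw [e4]
      constructor <;> linarith
    have hre : ∀ k, 0 < (d k).re ∧ (d k).re < 2 / R := by
      intro k
      apply hb1
      have h1 := Complex.abs_re_le_norm (d k - (1 + Complex.I) / R)
      rw [Complex.sub_re, hRe.1] at h1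
      exact h1.trans_lt (hd k)
    have him : ∀ k, 0 < (d k).im ∧ (d k).im < 2 / R := by
      intro k
      apply hb1
      have h1 := Complex.abs_im_le_norm (d k - (1 + Complex.I) / R)
      rw [Complex.sub_im, hRe.2] at h1
      exact h1.trans_lt (hd k)
    let cd : ι × Bool → ℝ := fun q => bif q.2 then (d q.1).im else (d q.1).re
    have hcd : ∀ q, 0 < cd q ∧ cd q < 2 / R := by
      rintro ⟨k, c⟩
      cases c
      · exact hre k
      · exact him k
    obtain ⟨w, hw, hwd⟩ := exists_digits (Bb N) m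
      (fun i => ⌊R * ((N : ℝ) + 1) * cd (τ.symm i)⌋₊) (by
        intro i
        have h1 := (hcd (τ.symm i)).2
        rw [lt_div_iff₀ hR0] at h1
        rw [Nat.floor_lt (by have := (hcd (τ.symm i)).1; positivity)]
        show _ < (((2 * (N + 1) + 1 : ℕ)) : ℝ)
        push_cast
        nlinarith)
    refine ⟨w, hw, (htst_iff _).2 fun l => ?_⟩
    have hdig : ∀ q : ι × Bool, dg (τ q) (N, w) = ⌊R * ((N : ℝ) + 1) * cd q⌋₊ := by
      intro q
      have := hwd (τ q)
      rw [Equiv.symm_apply_apply] at this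
      exact this
    have hclose : ‖vv (X (N, w)) - b‖ ≤ 2 / ((N : ℝ) + 1) := by
      rw [pi_norm_le_iff_of_nonneg (by positivity)]
      intro k
      have h1 : ∀ q, |(⌊R * ((N : ℝ) + 1) * cd q⌋₊ : ℝ) / (R * ((N : ℝ) + 1)) - cd q| ≤
          1 / ((N : ℝ) + 1) := by
        intro q
        have h2 : 0 ≤ R * ((N : ℝ) + 1) * cd q := by have := (hcd q).1; positivity
        have h3 := Nat.floor_le h2
        have h4 := Nat.lt_floor_add_one (R * ((N : ℝ) + 1) * cd q)
        have h5 : (⌊R * ((N : ℝ) + 1) * cd q⌋₊ : ℝ) / (R * ((N : ℝ) + 1)) - cd q =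
            ((⌊R * ((N : ℝ) + 1) * cd q⌋₊ : ℝ) - R * ((N : ℝ) + 1) * cd q) /
              (R * ((N : ℝ) + 1)) := by
          field_simp
        rw [h5, abs_div, abs_of_pos (by positivity : 0 < R * ((N : ℝ) + 1)),
          div_le_div_iff₀ (by positivity) hN]
        have h6 : |(⌊R * ((N : ℝ) + 1) * cd q⌋₊ : ℝ) - R * ((N : ℝ) + 1) * cd q| ≤ 1 := by
          rw [abs_le]
          constructor <;> linarith
        have hR1 : 1 ≤ R := by
          have := Nat.cast_nonneg (α := ℝ) R'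
          show (1 : ℝ) ≤ (R' : ℝ) + 1
          linarith
        nlinarith
      have e1 : (vv (X (N, w)) - b) k =
          ((((⌊R * ((N : ℝ) + 1) * cd (k, false)⌋₊ : ℝ) / (R * ((N : ℝ) + 1)) -
            cd (k, false) : ℝ)) : ℂ) +
          ((((⌊R * ((N : ℝ) + 1) * cd (k, true)⌋₊ : ℝ) / (R * ((N : ℝ) + 1)) -
            cd (k, true) : ℝ)) : ℂ) * Complex.I := by
        rw [Pi.sub_apply]
        show val (X (N, w) k) - b k = _
        rw [hXval, hdig, hdig]
        have h7 : b k = val (x0 k) + (((d k).re : ℂ) + ((d k).im : ℂ) * Complex.I) := by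
          rw [Complex.re_add_im]
          simp only [d]
          ring
        rw [h7]
        show _ = ((((⌊R * ((N : ℝ) + 1) * cd (k, false)⌋₊ : ℝ) / (R * ((N : ℝ) + 1)) -
            (d k).re : ℝ)) : ℂ) +
          ((((⌊R * ((N : ℝ) + 1) * cd (k, true)⌋₊ : ℝ) / (R * ((N : ℝ) + 1)) -
            (d k).im : ℝ)) : ℂ) * Complex.I
        push_cast
        ring
      rw [e1]
      refine (norm_add_le _ _).trans ?_
      rw [norm_mul, Complex.norm_I, mul_one, Complex.norm_real, Complex.norm_real,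
        Real.norm_eq_abs, Real.norm_eq_abs]
      refine (add_le_add (h1 _) (h1 _)).trans (le_of_eq ?_)
      ring
    have h1 := (hlow _ (hnear (N, w))).2
    have h2 := hA1 l N (X (N, w)) ((hnear (N, w)).trans_le (hρr l))
    have h3 := norm_le_pi_norm (G (vv (X (N, w)))) l
    have e1 : val (A l (N, X (N, w))) = G (vv (X (N, w))) l -
        (G (vv (X (N, w))) l - val (A l (N, X (N, w)))) := by ring
    show ‖val (A l (N, X (N, w)))‖ ≤ (H : ℝ) / ((N : ℝ) + 1)
    rw [e1]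
    refine (norm_sub_le _ _).trans ?_
    have h4 : (ne + 1) * ‖vv (X (N, w)) - b‖ ≤ (ne + 1) * (2 / ((N : ℝ) + 1)) :=
      mul_le_mul_of_nonneg_left hclose (by positivity)
    have h5 : (ne + 1) * (2 / ((N : ℝ) + 1)) + 1 / ((N : ℝ) + 1) ≤ (H : ℝ) / ((N : ℝ) + 1) := by
      rw [← mul_div_assoc, ← add_div]
      apply div_le_div_of_nonneg_right _ hN.le
      linarith
    linarith
  -- the search
  let W : ℕ → ℕ := fun N => mu (fun w => tst (N, w)) (Bb N ^ m)
  have hW : Lf W := Lf.mu htst ((((Lf.const 2).mul Lf.id.succ).succ).pow m)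
  have hWt : ∀ N, tst (N, W N) ≠ 0 := fun N => (mu_spec (hex N)).2
  refine IsLE.of_bound (C := 2 * ns * (H + 1)) (A := fun N => X (N, W N) k)
    (Lf.vec_apply (hX.comp (Lf.id.pair hW)) k) fun N => ?_
  have hN : (0 : ℝ) < (N : ℝ) + 1 := by positivity
  have h1 : ‖b k - val (X (N, W N) k)‖ ≤ ‖vv (X (N, W N)) - b‖ := by
    rw [← norm_neg, neg_sub]
    exact norm_le_pi_norm (vv (X (N, W N)) - b) k
  have h2 : ‖G (vv (X (N, W N)))‖ ≤ ((H : ℝ) + 1) / ((N : ℝ) + 1) := by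
    rw [pi_norm_le_iff_of_nonneg (by positivity)]
    intro l
    have h3 := hA1 l N (X (N, W N)) ((hnear (N, W N)).trans_le (hρr l))
    have h4 := (htst_iff _).1 (hWt N) l
    have e1 : G (vv (X (N, W N))) l = (G (vv (X (N, W N))) l - val (A l (N, X (N, W N)))) +
        val (A l (N, X (N, W N))) := by ring
    rw [e1, add_div, add_comm ((H : ℝ) / _)]
    exact (norm_add_le _ _).trans (add_le_add h3 h4)
  refine h1.trans ((hlow _ (hnear (N, W N))).1.trans ?_)
  rw [mul_div_assoc]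
  exact mul_le_mul_of_nonneg_left h2 (by positivity)

end Pool.Agent.LowEl
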