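import Pool.Agent.LowEl.CA
import Pool.Agent.EllPR.Sums

/-!
# Lower elementary computation of sums over a lattice
-/

open Filter Topology

namespace Pool.Agent.LowEl

open Pool.Agent.EllSch Pool.Agent.EllSch.C1
open Pool.Agent.EllPR (Vec T val vv zz zc val_zc len u2 tail_bound latc val_latc tpow val_tpow E3
  E3_apply ev_Bd3 strict3c)

theorem lf_zc : Lf zc := by
  have h1 : Lf fun j : ℕ => j % (1 + 1) := Lf.id.mod (Lf.const 1)
  have h2 : Lf fun j : ℕ => j / (1 + 1) := Lf.id.div (Lf.const 1)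
  refine (Lf.tmk (((Lf.const 1).sub h1).mul h2) (h1.mul h2.succ) (Lf.const 0) (Lf.const 0)
    (Lf.const 0)).of_eq fun j => ?_
  unfold zc
  rcases Nat.mod_two_eq_zero_or_one j with h | h
  · simp [h]
  · simp [h]

theorem lf_len : Lf len := by
  have h1 : Lf fun n : ℕ => n + 1 := Lf.id.succ
  have h2 : Lf fun n : ℕ => 2 * ((n + 1) * (n + 1)) + 1 := ((Lf.const 2).mul (h1.mul h1)).succ
  exact h2.mul h2

theorem len_pos (n : ℕ) : 0 < len n := by
  unfold len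
  positivity

/-- lattice sums with an explicit majorant are lower elementary -/
theorem ca_tsum {ι : Type} [Fintype ι] {b : ι → ℂ} {F : (ι → ℂ) → ℂ}
    (f : ℤ × ℤ → (ι → ℂ) → ℂ) (hF : ∀ v, F v = ∑' x, f x v) {L : (ι → ℂ) →L[ℂ] ℂ}
    (hL : HasStrictFDerivAt F L b) {B : ℕ × Vec ι T → T} (hB : Lf B)
    (hBf : ∀ k x, val (B (k, x)) = f (zz k) (vv x)) {K : ℝ}
    (hK : ∀ᶠ v in 𝓝 b, ∀ x, ‖f x v‖ ≤ K * u3 x) : CA F b := by
  obtain ⟨r, hr, hrK⟩ := Metric.eventually_nhds_iff.1 hK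
  let S : ℕ × Vec ι T → T := fun p =>
    rsum (4 * len p.1 * (p.1 + 1)) (len p.1) fun k => B (k, p.2)
  have hlen : Lf fun p : ℕ × Vec ι T => len p.1 := lf_len.comp Lf.fst
  have hS : Lf S := Lf.rsum (B := fun q : (ℕ × Vec ι T) × ℕ => B (q.2, q.1.2))
    (hB.comp (Lf.snd.pair (Lf.snd.comp Lf.fst))) (((Lf.const 4).mul hlen).mul Lf.fst.succ) hlen
  refine ⟨lip_of_strict hL, r, hr, K * (∑' k, u2 (zz k)) + 1, S, hS, fun n x hx => ?_⟩
  have h1 := tail_bound (hrK (by rwa [dist_eq_norm])) n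
  have h2 := rsum_bound (4 * len n * (n + 1)) (len n) fun k => B (k, x)
  have h3 : ((len n : ℕ) : ℝ) * (4 / (((4 * len n * (n + 1) : ℕ) : ℝ) + 1)) ≤
      1 / ((n : ℝ) + 1) := by
    have h4 : (0 : ℝ) < (n : ℝ) + 1 := by positivity
    have h5 : (0 : ℝ) < len n := by exact_mod_cast len_pos n
    rw [← mul_div_assoc, div_le_div_iff₀ (by positivity) h4]
    push_cast
    nlinarith
  have e : F (vv x) - val (S (n, x)) = (∑' y, f y (vv x) -
      ∑ k ∈ Finset.range (len n), f (zz k) (vv x)) +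
      (∑ k ∈ Finset.range (len n), val (B (k, x)) - val (S (n, x))) := by
    rw [hF]
    simp only [hBf]
    ring
  rw [e, add_div]
  exact (norm_add_le _ _).trans (add_le_add h1 (h2.trans h3))

section weier

variable {α : Type} [Cod α]

theorem Lf.latc {k : α → ℕ} {a b : α → T} (hk : Lf k) (ha : Lf a) (hb : Lf b) :
    Lf fun p => latc (k p) (a p) (b p) := by
  have h1 : Lf fun p => (k p).unpair.1 := lf_unpair_left.comp hk
  have h2 : Lf fun p => (k p).unpair.2 := lf_unpair_right.comp hk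
  exact Lf.tadd (Lf.tmul (lf_zc.comp h1) ha) (Lf.tmul (lf_zc.comp h2) hb)

theorem Lf.tpow {x : α → T} (hx : Lf x) (n : ℕ) : Lf fun p => tpow (x p) n := by
  induction n with
  | zero => exact Lf.const _
  | succ n ih => exact Lf.tmul ih hx

attribute [local irreducible] EllPR.T.add EllPR.T.mul EllPR.T.neg EllPR.T.inv EllPR.val EllPR.tpow
  EllPR.latc EllPR.T.ofNat

theorem ca_wp0 {v : Fin 3 → ℂ} (h : Ind (v 0) (v 1)) (hz : Off (v 0) (v 1) (v 2)) :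
    CA (fun u : Fin 3 → ℂ => wp (u 0) (u 1) (u 2)) v := by
  obtain ⟨L, hL, -⟩ := fs_wp h hz
  obtain ⟨c, M, hB⟩ := ev_Bd3 h hz
  refine ca_tsum (fun x u => 1 / (u 2 - lat (u 0) (u 1) x) ^ 2 - 1 / lat (u 0) (u 1) x ^ 2)
    (fun u => rfl) (strict3c wp hL) (B := fun p => T.add
    (T.inv (tpow (T.add (p.2 2) (T.neg (latc p.1 (p.2 0) (p.2 1)))) 2))
    (T.neg (T.inv (tpow (latc p.1 (p.2 0) (p.2 1)) 2)))) ?_ ?_
    (K := 2 * M / c ^ 3 + 1 / c ^ 2) ?_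
  · have hl : Lf fun p : ℕ × Vec (Fin 3) T => latc p.1 (p.2 0) (p.2 1) :=
      Lf.latc Lf.fst (Lf.vec_apply Lf.snd 0) (Lf.vec_apply Lf.snd 1)
    exact Lf.tadd (Lf.tinv (Lf.tpow (Lf.tadd (Lf.vec_apply Lf.snd 2) (Lf.tneg hl)) 2))
      (Lf.tneg (Lf.tinv (Lf.tpow hl 2)))
  · intro k x
    simp only [T.val_add, T.val_neg, T.val_inv, val_tpow, val_latc, vv]
    ring
  · filter_upwards [hB] with u hu x
    exact (hu x).b5

theorem ca_wz0 {v : Fin 3 → ℂ} (h : Ind (v 0) (v 1)) (hz : Off (v 0) (v 1) (v 2)) :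
    CA (fun u : Fin 3 → ℂ => wz (u 0) (u 1) (u 2)) v := by
  obtain ⟨L, hL, -⟩ := fs_wz h hz
  obtain ⟨c, M, hB⟩ := ev_Bd3 h hz
  refine ca_tsum (fun x u => 1 / (u 2 - lat (u 0) (u 1) x) + 1 / lat (u 0) (u 1) x +
    u 2 / lat (u 0) (u 1) x ^ 2) (fun u => rfl) (strict3c wz hL) (B := fun p => T.add (T.add
    (T.inv (T.add (p.2 2) (T.neg (latc p.1 (p.2 0) (p.2 1)))))
    (T.inv (latc p.1 (p.2 0) (p.2 1))))
    (T.mul (p.2 2) (T.inv (tpow (latc p.1 (p.2 0) (p.2 1)) 2)))) ?_ ?_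
    (K := M ^ 2 / c ^ 3 + 1 / c) ?_
  · have hl : Lf fun p : ℕ × Vec (Fin 3) T => latc p.1 (p.2 0) (p.2 1) :=
      Lf.latc Lf.fst (Lf.vec_apply Lf.snd 0) (Lf.vec_apply Lf.snd 1)
    exact Lf.tadd (Lf.tadd (Lf.tinv (Lf.tadd (Lf.vec_apply Lf.snd 2) (Lf.tneg hl))) (Lf.tinv hl))
      (Lf.tmul (Lf.vec_apply Lf.snd 2) (Lf.tinv (Lf.tpow hl 2)))
  · intro k x
    simp only [T.val_add, T.val_mul, T.val_neg, T.val_inv, val_tpow, val_latc, vv]
    ring
  · filter_upwards [hB] with u hu x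
    exact (hu x).b6

end weier

variable {ι : Type} [Fintype ι] {A B Z : (ι → ℂ) → ℂ} {v : ι → ℂ}

theorem ca_fun3 (g : ℂ → ℂ → ℂ → ℂ) (hA : CA A v) (hB : CA B v) (hZ : CA Z v)
    (hg : CA (fun u : Fin 3 → ℂ => g (u 0) (u 1) (u 2)) ![A v, B v, Z v]) :
    CA (fun v => g (A v) (B v) (Z v)) v := by
  have h1 : CA (fun w => (fun u : Fin 3 → ℂ => g (u 0) (u 1) (u 2))
      fun k => (![A, B, Z] : Fin 3 → (ι → ℂ) → ℂ) k w) v := by
    apply CA.comp (g := fun u : Fin 3 → ℂ => g (u 0) (u 1) (u 2)) (F := ![A, B, Z])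
    · have e : (fun k => (![A, B, Z] : Fin 3 → (ι → ℂ) → ℂ) k v) = ![A v, B v, Z v] := by
        funext k; fin_cases k <;> rfl
      rw [e]; exact hg
    · intro k
      fin_cases k
      · exact hA
      · exact hB
      · exact hZ
  exact h1

theorem ca_wp (hA : CA A v) (hB : CA B v) (hZ : CA Z v) (h : Ind (A v) (B v))
    (hz : Off (A v) (B v) (Z v)) : CA (fun v => wp (A v) (B v) (Z v)) v :=
  ca_fun3 wp hA hB hZ (ca_wp0 (v := ![A v, B v, Z v]) h hz)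

theorem ca_wz (hA : CA A v) (hB : CA B v) (hZ : CA Z v) (h : Ind (A v) (B v))
    (hz : Off (A v) (B v) (Z v)) : CA (fun v => wz (A v) (B v) (Z v)) v :=
  ca_fun3 wz hA hB hZ (ca_wz0 (v := ![A v, B v, Z v]) h hz)

end Pool.Agent.LowEl
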