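import Pool.Agent.LowEl.Rec

/-!
# Lower elementary operations on codes of Gaussian rationals
-/

namespace Pool.Agent.LowEl

open Pool.Agent.EllPR (Vec T val vv)
open Pool.Agent.EllPR

variable {α : Type} [Cod α] {x y : α → T} {f g : α → ℕ}

theorem Lf.t1 (hx : Lf x) : Lf fun a => (x a).1 := Lf.fst.comp hx
theorem Lf.t2 (hx : Lf x) : Lf fun a => (x a).2.1 := (Lf.fst.comp Lf.snd).comp hx
theorem Lf.t3 (hx : Lf x) : Lf fun a => (x a).2.2.1 :=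
  (Lf.fst.comp (Lf.snd.comp Lf.snd)).comp hx
theorem Lf.t4 (hx : Lf x) : Lf fun a => (x a).2.2.2.1 :=
  (Lf.fst.comp (Lf.snd.comp (Lf.snd.comp Lf.snd))).comp hx
theorem Lf.t5 (hx : Lf x) : Lf fun a => (x a).2.2.2.2 :=
  (Lf.snd.comp (Lf.snd.comp (Lf.snd.comp Lf.snd))).comp hx

theorem Lf.tmk {f1 f2 f3 f4 f5 : α → ℕ} (h1 : Lf f1) (h2 : Lf f2) (h3 : Lf f3) (h4 : Lf f4)
    (h5 : Lf f5) : Lf fun a => ((f1 a, f2 a, f3 a, f4 a, f5 a) : T) :=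
  h1.pair (h2.pair (h3.pair (h4.pair h5)))

theorem Lf.dsq (hf : Lf f) (hg : Lf g) : Lf fun a => T.dsq (f a) (g a) :=
  ((hf.sub hg).add (hg.sub hf)).mul ((hf.sub hg).add (hg.sub hf))

theorem Lf.tneg (hx : Lf x) : Lf fun a => T.neg (x a) := Lf.tmk hx.t2 hx.t1 hx.t4 hx.t3 hx.t5

theorem Lf.tnrm (hx : Lf x) : Lf fun a => T.nrm (x a) :=
  (Lf.dsq hx.t1 hx.t2).add (Lf.dsq hx.t3 hx.t4)

theorem Lf.tinv (hx : Lf x) : Lf fun a => T.inv (x a) :=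
  Lf.tmk ((hx.t5.succ.mul hx.t1).mul (hx.tnrm.min (Lf.const 1)))
    ((hx.t5.succ.mul hx.t2).mul (hx.tnrm.min (Lf.const 1)))
    ((hx.t5.succ.mul hx.t4).mul (hx.tnrm.min (Lf.const 1)))
    ((hx.t5.succ.mul hx.t3).mul (hx.tnrm.min (Lf.const 1)))
    (hx.tnrm.sub (Lf.const 1))

theorem Lf.tadd (hx : Lf x) (hy : Lf y) : Lf fun a => T.add (x a) (y a) :=
  Lf.tmk ((hx.t1.mul hy.t5.succ).add (hy.t1.mul hx.t5.succ))
    ((hx.t2.mul hy.t5.succ).add (hy.t2.mul hx.t5.succ))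
    ((hx.t3.mul hy.t5.succ).add (hy.t3.mul hx.t5.succ))
    ((hx.t4.mul hy.t5.succ).add (hy.t4.mul hx.t5.succ))
    (((hx.t5.mul hy.t5).add hx.t5).add hy.t5)

theorem Lf.tmul (hx : Lf x) (hy : Lf y) : Lf fun a => T.mul (x a) (y a) :=
  Lf.tmk
    ((((hx.t1.mul hy.t1).add (hx.t2.mul hy.t2)).add (hx.t3.mul hy.t4)).add (hx.t4.mul hy.t3))
    ((((hx.t1.mul hy.t2).add (hx.t2.mul hy.t1)).add (hx.t3.mul hy.t3)).add (hx.t4.mul hy.t4))
    ((((hx.t1.mul hy.t3).add (hx.t2.mul hy.t4)).add (hx.t3.mul hy.t1)).add (hx.t4.mul hy.t2))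
    ((((hx.t1.mul hy.t4).add (hx.t2.mul hy.t3)).add (hx.t3.mul hy.t2)).add (hx.t4.mul hy.t1))
    (((hx.t5.mul hy.t5).add hx.t5).add hy.t5)

theorem Lf.tofNat (hf : Lf f) : Lf fun a => T.ofNat (f a) :=
  Lf.tmk hf (Lf.const 0) (Lf.const 0) (Lf.const 0) (Lf.const 0)

/-! ### Rounding -/

/-- round the components to the denominator `M + 1` -/
def rnd (M : ℕ) (x : T) : T :=
  ((M + 1) * x.1 / (x.2.2.2.2 + 1), (M + 1) * x.2.1 / (x.2.2.2.2 + 1),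
    (M + 1) * x.2.2.1 / (x.2.2.2.2 + 1), (M + 1) * x.2.2.2.1 / (x.2.2.2.2 + 1), M)

theorem rnd_part (M p t : ℕ) :
    ‖(p : ℂ) / ((t : ℂ) + 1) - (((M + 1) * p / (t + 1) : ℕ) : ℂ) / ((M : ℂ) + 1)‖ ≤
      1 / ((M : ℝ) + 1) := by
  have hM : (0 : ℝ) < (M : ℝ) + 1 := by positivity
  have ht : (0 : ℝ) < (t : ℝ) + 1 := by positivity
  have e : (p : ℂ) / ((t : ℂ) + 1) - (((M + 1) * p / (t + 1) : ℕ) : ℂ) / ((M : ℂ) + 1) =
      (((p : ℝ) / ((t : ℝ) + 1) - (((M + 1) * p / (t + 1) : ℕ) : ℝ) / ((M : ℝ) + 1) : ℝ) : ℂ) := by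
    push_cast
    rfl
  rw [e, Complex.norm_real, Real.norm_eq_abs]
  have h1 := Nat.div_add_mod ((M + 1) * p) (t + 1)
  have h2 := Nat.mod_lt ((M + 1) * p) (Nat.succ_pos t)
  set q : ℕ := (M + 1) * p / (t + 1)
  set r : ℕ := (M + 1) * p % (t + 1)
  have h1' : ((t : ℝ) + 1) * q + r = ((M : ℝ) + 1) * p := by exact_mod_cast h1
  have h2' : (r : ℝ) < (t : ℝ) + 1 := by exact_mod_cast h2
  have h3 : (p : ℝ) / ((t : ℝ) + 1) - (q : ℝ) / ((M : ℝ) + 1) =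
      r / (((t : ℝ) + 1) * ((M : ℝ) + 1)) := by
    field_simp
    linarith
  rw [h3, abs_of_nonneg (by positivity), div_le_div_iff₀ (by positivity) hM]
  nlinarith [Nat.cast_nonneg (α := ℝ) r]

theorem rnd_bound (M : ℕ) (x : T) : ‖val x - val (rnd M x)‖ ≤ 4 / ((M : ℝ) + 1) := by
  obtain ⟨p, q, r, s, t⟩ := x
  have e : val (p, q, r, s, t) - val (rnd M (p, q, r, s, t)) =
      (((p : ℂ) / ((t : ℂ) + 1) - (((M + 1) * p / (t + 1) : ℕ) : ℂ) / ((M : ℂ) + 1)) -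
        ((q : ℂ) / ((t : ℂ) + 1) - (((M + 1) * q / (t + 1) : ℕ) : ℂ) / ((M : ℂ) + 1))) +
      (((r : ℂ) / ((t : ℂ) + 1) - (((M + 1) * r / (t + 1) : ℕ) : ℂ) / ((M : ℂ) + 1)) -
        ((s : ℂ) / ((t : ℂ) + 1) - (((M + 1) * s / (t + 1) : ℕ) : ℂ) / ((M : ℂ) + 1))) *
          Complex.I := by
    simp only [val, rnd]
    ring
  rw [e]
  have h1 := rnd_part M p t
  have h2 := rnd_part M q t
  have h3 := rnd_part M r t
  have h4 := rnd_part M s t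
  refine (norm_add_le _ _).trans ?_
  rw [norm_mul, Complex.norm_I, mul_one]
  have h5 := (norm_sub_le _ _).trans (add_le_add h1 h2)
  have h6 := (norm_sub_le _ _).trans (add_le_add h3 h4)
  refine (add_le_add h5 h6).trans (le_of_eq ?_)
  ring

theorem Lf.rnd (hf : Lf f) (hx : Lf x) : Lf fun a => rnd (f a) (x a) :=
  Lf.tmk ((hf.succ.mul hx.t1).div hx.t5) ((hf.succ.mul hx.t2).div hx.t5)
    ((hf.succ.mul hx.t3).div hx.t5) ((hf.succ.mul hx.t4).div hx.t5) hf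

/-- the sum of rounded terms -/
def rsum (M m : ℕ) (B : ℕ → T) : T :=
  (∑ k ∈ Finset.range m, (LowEl.rnd M (B k)).1, ∑ k ∈ Finset.range m, (LowEl.rnd M (B k)).2.1,
    ∑ k ∈ Finset.range m, (LowEl.rnd M (B k)).2.2.1,
    ∑ k ∈ Finset.range m, (LowEl.rnd M (B k)).2.2.2.1, M)

theorem val_rsum (M m : ℕ) (B : ℕ → T) :
    val (rsum M m B) = ∑ k ∈ Finset.range m, val (LowEl.rnd M (B k)) := by
  have h1 : ∀ k, (LowEl.rnd M (B k)).2.2.2.2 = M := fun k => rfl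
  simp only [val, rsum, h1, ← Finset.sum_div]
  congr 1
  push_cast
  rw [← Finset.sum_sub_distrib, ← Finset.sum_sub_distrib, Finset.sum_mul, ← Finset.sum_add_distrib]

theorem rsum_bound (M m : ℕ) (B : ℕ → T) :
    ‖∑ k ∈ Finset.range m, val (B k) - val (rsum M m B)‖ ≤ m * (4 / ((M : ℝ) + 1)) := by
  rw [val_rsum, ← Finset.sum_sub_distrib]
  refine (norm_sum_le _ _).trans ?_
  refine (Finset.sum_le_sum fun k _ => rnd_bound M (B k)).trans ?_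
  rw [Finset.sum_const, Finset.card_range, nsmul_eq_mul]

theorem Lf.rsum {B : α × ℕ → T} (hB : Lf B) (hf : Lf f) (hg : Lf g) :
    Lf fun a => rsum (f a) (g a) fun k => B (a, k) := by
  have h1 : Lf fun p : α × ℕ => LowEl.rnd (f p.1) (B p) := Lf.rnd (hf.comp Lf.fst) hB
  exact Lf.tmk (Lf.bsum (F := fun p : α × ℕ => (LowEl.rnd (f p.1) (B p)).1) h1.t1 hg)
    (Lf.bsum (F := fun p : α × ℕ => (LowEl.rnd (f p.1) (B p)).2.1) h1.t2 hg)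
    (Lf.bsum (F := fun p : α × ℕ => (LowEl.rnd (f p.1) (B p)).2.2.1) h1.t3 hg)
    (Lf.bsum (F := fun p : α × ℕ => (LowEl.rnd (f p.1) (B p)).2.2.2.1) h1.t4 hg) hf

end Pool.Agent.LowEl
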