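import Pool.Agent.EllPR.Code

/-!
# Lower elementary functions of one variable
-/

namespace Pool.Agent.LowEl

open Pool.Agent.EllPR (Vec)

/-- the lower elementary functions of one variable, in terms of coded pairs -/
inductive L1 : (ℕ → ℕ) → Prop
  | zero : L1 fun _ => 0
  | succ : L1 fun n => n + 1
  | left : L1 fun n => n.unpair.1
  | right : L1 fun n => n.unpair.2
  | pair {f g : ℕ → ℕ} : L1 f → L1 g → L1 fun n => Nat.pair (f n) (g n)
  | comp {f g : ℕ → ℕ} : L1 f → L1 g → L1 fun n => f (g n)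
  | sub : L1 fun n => n.unpair.1 - n.unpair.2
  | sum {f : ℕ → ℕ} : L1 f →
      L1 fun n => ∑ i ∈ Finset.range n.unpair.2, f (Nat.pair n.unpair.1 i)

theorem L1.of_eq {f g : ℕ → ℕ} (hf : L1 f) (H : ∀ n, f n = g n) : L1 g := (funext H : f = g) ▸ hf

theorem L1.id : L1 fun n => n := (L1.left.pair L1.right).of_eq fun n => Nat.pair_unpair n

theorem L1.const (k : ℕ) : L1 fun _ => k := by
  induction k with
  | zero => exact L1.zero
  | succ k ih => exact L1.succ.comp ih

/-- types with codes -/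
class Cod (α : Type) where
  /-- the code -/
  code : α → ℕ

instance instCodNat : Cod ℕ := ⟨fun n => n⟩

instance instCodProd {α β : Type} [Cod α] [Cod β] : Cod (α × β) :=
  ⟨fun p => Nat.pair (Cod.code p.1) (Cod.code p.2)⟩

/-- the code of a finite sequence -/
def codeFin {α : Type} [Cod α] : (k : ℕ) → (Fin k → α) → ℕ
  | 0, _ => 0
  | k + 1, x => Nat.pair (Cod.code (x 0)) (codeFin k fun i => x i.succ)

noncomputable instance instCodVec {ι α : Type} [Fintype ι] [Cod α] : Cod (Vec ι α) :=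
  ⟨fun x => codeFin (Fintype.card ι) fun i => x ((Fintype.equivFin ι).symm i)⟩

section typed

variable {α β γ δ : Type} [Cod α] [Cod β] [Cod γ] [Cod δ]

/-- `F` is computed on codes by a lower elementary function -/
def Lf (F : α → β) : Prop := ∃ f : ℕ → ℕ, L1 f ∧ ∀ a, f (Cod.code a) = Cod.code (F a)

theorem Lf.of_eq {F G : α → β} (hF : Lf F) (H : ∀ a, F a = G a) : Lf G := (funext H : F = G) ▸ hF

theorem Lf.comp {F : β → γ} {G : α → β} (hF : Lf F) (hG : Lf G) : Lf fun a => F (G a) := by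
  obtain ⟨f, hf, hfa⟩ := hF
  obtain ⟨g, hg, hga⟩ := hG
  exact ⟨fun n => f (g n), hf.comp hg, fun a => by
    show f (g (Cod.code a)) = Cod.code (F (G a))
    rw [hga, hfa]⟩

theorem Lf.pair {F : α → β} {G : α → γ} (hF : Lf F) (hG : Lf G) : Lf fun a => (F a, G a) := by
  obtain ⟨f, hf, hfa⟩ := hF
  obtain ⟨g, hg, hga⟩ := hG
  exact ⟨_, hf.pair hg, fun a => by rw [hfa, hga]; rfl⟩

theorem Lf.id : Lf fun a : α => a := ⟨_, L1.id, fun _ => rfl⟩

theorem Lf.const (b : β) : Lf fun _ : α => b := ⟨_, L1.const (Cod.code b), fun _ => rfl⟩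

theorem Lf.fst : Lf fun p : α × β => p.1 :=
  ⟨_, L1.left, fun p => by
    show (Nat.unpair (Nat.pair (Cod.code p.1) (Cod.code p.2))).1 = _
    rw [Nat.unpair_pair]⟩

theorem Lf.snd : Lf fun p : α × β => p.2 :=
  ⟨_, L1.right, fun p => by
    show (Nat.unpair (Nat.pair (Cod.code p.1) (Cod.code p.2))).2 = _
    rw [Nat.unpair_pair]⟩

theorem lf_nat_iff {f : ℕ → ℕ} : Lf f ↔ L1 f := by
  constructor
  · rintro ⟨g, hg, h⟩
    exact hg.of_eq h
  · intro h
    exact ⟨f, h, fun _ => rfl⟩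

theorem lf_unpair_left : Lf fun n : ℕ => n.unpair.1 := lf_nat_iff.2 L1.left
theorem lf_unpair_right : Lf fun n : ℕ => n.unpair.2 := lf_nat_iff.2 L1.right

/-- application of a function of two variables -/
theorem Lf.comp₂ {H : β × γ → δ} (hH : Lf H) {F : α → β} {G : α → γ} (hF : Lf F) (hG : Lf G) :
    Lf fun a => H (F a, G a) :=
  Lf.comp hH (hF.pair hG)

theorem Lf.succ {F : α → ℕ} (hF : Lf F) : Lf fun a => F a + 1 :=
  (lf_nat_iff.2 L1.succ).comp hF

theorem Lf.sub {F G : α → ℕ} (hF : Lf F) (hG : Lf G) : Lf fun a => F a - G a := by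
  have h1 : Lf fun p : ℕ × ℕ => p.1 - p.2 := by
    refine ⟨_, L1.sub, fun p => ?_⟩
    show (Nat.unpair (Nat.pair p.1 p.2)).1 - (Nat.unpair (Nat.pair p.1 p.2)).2 = p.1 - p.2
    rw [Nat.unpair_pair]
  exact h1.comp (hF.pair hG)

/-- bounded sums -/
theorem Lf.bsum {F : α × ℕ → ℕ} (hF : Lf F) {H : α → ℕ} (hH : Lf H) :
    Lf fun a => ∑ i ∈ Finset.range (H a), F (a, i) := by
  obtain ⟨f, hf, hfa⟩ := hF
  obtain ⟨g, hg, hga⟩ := hH
  refine ⟨_, hf.sum.comp (L1.id.pair hg), fun a => ?_⟩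
  show ∑ i ∈ Finset.range (Nat.unpair (Nat.pair (Cod.code a) (g (Cod.code a)))).2,
    f (Nat.pair (Nat.unpair (Nat.pair (Cod.code a) (g (Cod.code a)))).1 i) = _
  rw [Nat.unpair_pair, hga]
  exact Finset.sum_congr rfl fun i _ => hfa (a, i)

theorem Lf.mul {F G : α → ℕ} (hF : Lf F) (hG : Lf G) : Lf fun a => F a * G a := by
  have h1 := Lf.bsum (F := fun p : α × ℕ => F p.1) (hF.comp Lf.fst) hG
  refine h1.of_eq fun a => ?_
  show ∑ i ∈ Finset.range (G a), F a = F a * G a
  rw [Finset.sum_const, Finset.card_range, smul_eq_mul, mul_comm]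

theorem Lf.add {F G : α → ℕ} (hF : Lf F) (hG : Lf G) : Lf fun a => F a + G a := by
  refine (((hF.succ.mul hG.succ).sub (hF.mul hG)).sub (Lf.const 1)).of_eq fun a => ?_
  have h1 : (F a + 1) * (G a + 1) = F a * G a + (F a + G a + 1) := by ring
  rw [h1, Nat.add_sub_cancel_left, Nat.add_sub_cancel]

theorem Lf.min {F G : α → ℕ} (hF : Lf F) (hG : Lf G) : Lf fun a => Min.min (F a) (G a) :=
  (hF.sub (hF.sub hG)).of_eq fun a => by
    rcases le_total (F a) (G a) with h | h
    · rw [Nat.sub_eq_zero_of_le h, min_eq_left h, Nat.sub_zero]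
    · rw [min_eq_right h, Nat.sub_sub_self h]

theorem Lf.pow {F : α → ℕ} (hF : Lf F) (k : ℕ) : Lf fun a => F a ^ k := by
  induction k with
  | zero => exact (Lf.const 1).of_eq fun a => (pow_zero _).symm
  | succ k ih => exact (ih.mul hF).of_eq fun a => (pow_succ _ _).symm

theorem div_formula (x y : ℕ) :
    ∑ i ∈ Finset.range x, (1 - ((i + 1) * (y + 1) - x)) = x / (y + 1) := by
  have h1 : ∀ i, (1 - ((i + 1) * (y + 1) - x)) = if i < x / (y + 1) then 1 else 0 := by
    intro i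
    have h2 : (i + 1) * (y + 1) ≤ x ↔ i < x / (y + 1) := by
      rw [← Nat.le_div_iff_mul_le (Nat.succ_pos y)]
      exact Iff.rfl
    split_ifs with h
    · rw [Nat.sub_eq_zero_of_le (h2.2 h)]
    · have h3 : ¬ (i + 1) * (y + 1) ≤ x := fun h' => h (h2.1 h')
      omega
  simp only [h1]
  rw [← Finset.sum_filter, Finset.sum_const, smul_eq_mul, mul_one]
  have h3 : (Finset.range x).filter (fun i => i < x / (y + 1)) = Finset.range (x / (y + 1)) := by
    ext i
    rw [Finset.mem_filter, Finset.mem_range, Finset.mem_range]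
    exact ⟨fun h => h.2, fun h => ⟨h.trans_le (Nat.div_le_self _ _), h⟩⟩
  rw [h3, Finset.card_range]

theorem Lf.div {F G : α → ℕ} (hF : Lf F) (hG : Lf G) : Lf fun a => F a / (G a + 1) := by
  have h1 := Lf.bsum (F := fun p : α × ℕ => 1 - ((p.2 + 1) * (G p.1 + 1) - F p.1))
    ((Lf.const 1).sub ((Lf.snd.succ.mul (hG.comp Lf.fst).succ).sub (hF.comp Lf.fst))) hF
  exact h1.of_eq fun a => div_formula (F a) (G a)

theorem Lf.mod {F G : α → ℕ} (hF : Lf F) (hG : Lf G) : Lf fun a => F a % (G a + 1) := by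
  refine (hF.sub (hG.succ.mul (hF.div hG))).of_eq fun a => ?_
  have := Nat.div_add_mod (F a) (G a + 1)
  omega

/-- bounded search -/
def mu (P : ℕ → ℕ) (y : ℕ) : ℕ :=
  ∑ j ∈ Finset.range y, (1 - ∑ i ∈ Finset.range (j + 1), P i)

theorem mu_spec {P : ℕ → ℕ} {y : ℕ} (h : ∃ i < y, P i ≠ 0) : mu P y < y ∧ P (mu P y) ≠ 0 := by
  classical
  have h' : ∃ i, i < y ∧ P i ≠ 0 := h
  obtain ⟨m, hm, hmin⟩ : ∃ m, (m < y ∧ P m ≠ 0) ∧ ∀ i < m, ¬ (i < y ∧ P i ≠ 0) :=
    ⟨Nat.find h', Nat.find_spec h', fun i hi => Nat.find_min h' hi⟩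
  have e : mu P y = m := by
    unfold mu
    have h1 : ∀ j ∈ Finset.range y, (1 - ∑ i ∈ Finset.range (j + 1), P i) =
        if j < m then 1 else 0 := by
      intro j hj
      split_ifs with hjm
      · have h2 : ∑ i ∈ Finset.range (j + 1), P i = 0 := by
          apply Finset.sum_eq_zero
          intro i hi
          rw [Finset.mem_range] at hi
          by_contra h3
          exact hmin i (by omega) ⟨by omega, h3⟩
        rw [h2]
      · have h2 : P m ≤ ∑ i ∈ Finset.range (j + 1), P i :=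
          Finset.single_le_sum (f := P) (fun i _ => Nat.zero_le _) (Finset.mem_range.2 (by omega))
        have h3 := hm.2
        omega
    rw [Finset.sum_congr rfl h1, ← Finset.sum_filter, Finset.sum_const, smul_eq_mul, mul_one]
    have h3 : (Finset.range y).filter (fun i => i < m) = Finset.range m := by
      ext i
      rw [Finset.mem_filter, Finset.mem_range, Finset.mem_range]
      exact ⟨fun h => h.2, fun h => ⟨h.trans hm.1, h⟩⟩
    rw [h3, Finset.card_range]
  rw [e]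
  exact hm

theorem Lf.mu {P : α × ℕ → ℕ} (hP : Lf P) {H : α → ℕ} (hH : Lf H) :
    Lf fun a => mu (fun i => P (a, i)) (H a) := by
  have h1 : Lf fun p : α × ℕ => ∑ i ∈ Finset.range (p.2 + 1), P (p.1, i) :=
    Lf.bsum (F := fun q : (α × ℕ) × ℕ => P (q.1.1, q.2))
      (hP.comp ((Lf.fst.comp Lf.fst).pair Lf.snd)) Lf.snd.succ
  exact Lf.bsum (F := fun p : α × ℕ => 1 - ∑ i ∈ Finset.range (p.2 + 1), P (p.1, i))
    ((Lf.const 1).sub h1) hH

theorem codeFin_apply (k : ℕ) (i : Fin k) :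
    ∃ f, L1 f ∧ ∀ x : Fin k → α, f (codeFin k x) = Cod.code (x i) := by
  induction k with
  | zero => exact i.elim0
  | succ k ih =>
    refine Fin.cases ?_ (fun j => ?_) i
    · refine ⟨_, L1.left, fun x => ?_⟩
      simp only [codeFin, Nat.unpair_pair]
    · obtain ⟨f, hf, hfx⟩ := ih j
      refine ⟨_, hf.comp L1.right, fun x => ?_⟩
      simp only [codeFin, Nat.unpair_pair]
      exact hfx fun i => x i.succ

theorem codeFin_mk (k : ℕ) (F : α → Fin k → β) (hF : ∀ i, Lf fun a => F a i) :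
    ∃ f, L1 f ∧ ∀ a : α, f (Cod.code a) = codeFin k (F a) := by
  induction k with
  | zero => exact ⟨_, L1.zero, fun a => rfl⟩
  | succ k ih =>
    obtain ⟨f, hf, hfa⟩ := ih (fun a i => F a i.succ) fun i => hF i.succ
    obtain ⟨g, hg, hga⟩ := hF 0
    refine ⟨_, hg.pair hf, fun a => ?_⟩
    rw [hga, hfa]
    rfl

theorem lf_apply {ι : Type} [Fintype ι] (k : ι) : Lf fun x : Vec ι α => x k := by
  obtain ⟨f, hf, hfx⟩ := codeFin_apply (α := α) (Fintype.card ι) (Fintype.equivFin ι k)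
  refine ⟨f, hf, fun x => ?_⟩
  have h1 := hfx fun i => x ((Fintype.equivFin ι).symm i)
  rw [Equiv.symm_apply_apply] at h1
  exact h1

theorem Lf.vec_apply {ι : Type} [Fintype ι] {F : α → Vec ι β} (hF : Lf F) (k : ι) :
    Lf fun a => F a k :=
  Lf.comp (F := fun x : Vec ι β => x k) (lf_apply k) hF

theorem Lf.vec {ι : Type} [Fintype ι] {F : α → Vec ι β} (hF : ∀ k, Lf fun a => F a k) : Lf F :=
  codeFin_mk (Fintype.card ι) (fun a i => F a ((Fintype.equivFin ι).symm i)) fun i =>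
    hF ((Fintype.equivFin ι).symm i)

end typed

end Pool.Agent.LowEl
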